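import Pool.Agent.H29.BH.Targets3

/-!
# The inequality of Hoelder for one position, row R_HP
-/

set_option autoImplicit false

open NumberField NumberField.InfinitePlace NumberField.Units
  NumberField.Units.dirichletUnitTheorem MeasureTheory Set Filter Complex
open scoped nonZeroDivisors ENNReal

namespace Pool.Agent.H79.BH

open Pool.Agent.H29.BH
open Pool.Agent.H25.HK Pool.Agent.H23.LB Pool.Agent.H23.LC Pool.Agent.H29.DW
open Pool.Agent.H29.TC (dvs)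

/-- Hoelder's inequality with the exponents `1/2`, `1/4`, `1/4` -/
private theorem hoelder {α : Type*} [MeasurableSpace α] (m : Measure α) (u t : α → ℝ≥0∞)
    (hu : Measurable u) (ht : Measurable t) :
    ∫⁻ q, u q * t q ∂m ≤ (∫⁻ q, u q ∂m) ^ (1 / 2 : ℝ) * (∫⁻ q, u q ^ 2 ∂m) ^ (1 / 4 : ℝ) *
      (∫⁻ q, t q ^ 4 ∂m) ^ (1 / 4 : ℝ) := by
  have h := ENNReal.lintegral_prod_norm_pow_le (μ := m) (Finset.univ : Finset (Fin 3))
    (f := ![fun q => u q, fun q => u q ^ 2, fun q => t q ^ 4]) (p := ![1 / 2, 1 / 4, 1 / 4])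
    (by
      intro i _
      fin_cases i
      · exact hu.aemeasurable
      · exact (hu.pow_const 2).aemeasurable
      · exact (ht.pow_const 4).aemeasurable)
    (by
      rw [Fin.sum_univ_three]
      show (1 / 2 : ℝ) + 1 / 4 + 1 / 4 = 1
      norm_num)
    (by
      intro i _
      fin_cases i <;> norm_num)
  simp only [Fin.prod_univ_three] at h
  have e : ∀ q, u q * t q = u q ^ (1 / 2 : ℝ) * (u q ^ 2) ^ (1 / 4 : ℝ) *
      (t q ^ 4) ^ (1 / 4 : ℝ) := by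
    intro q
    have h1 : (u q ^ 2) ^ (1 / 4 : ℝ) = u q ^ (1 / 2 : ℝ) := by
      rw [← ENNReal.rpow_natCast, ← ENNReal.rpow_mul]
      norm_num
    have h2 : (t q ^ 4) ^ (1 / 4 : ℝ) = t q := by
      rw [← ENNReal.rpow_natCast, ← ENNReal.rpow_mul]
      norm_num
    rw [h1, h2, ← ENNReal.rpow_add_of_nonneg _ _ (by norm_num) (by norm_num)]
    norm_num
  calc ∫⁻ q, u q * t q ∂m
      = ∫⁻ q, u q ^ (1 / 2 : ℝ) * (u q ^ 2) ^ (1 / 4 : ℝ) * (t q ^ 4) ^ (1 / 4 : ℝ) ∂m :=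
        lintegral_congr e
    _ ≤ _ := h

private theorem swap_meas {α β γ : Type*} [MeasurableSpace α] [MeasurableSpace β]
    [MeasurableSpace γ] {g : α → β → γ} (h : Measurable (fun q : α × β => g q.1 q.2)) :
    Measurable (fun q : β × α => g q.2 q.1) := h.comp measurable_swap

private theorem r4 {x : ℝ} (hx : 0 ≤ x) : (x ^ 4) ^ (1 / 4 : ℝ) = x := by
  rw [← Real.rpow_natCast, ← Real.rpow_mul hx]
  norm_num

private theorem r2 {x : ℝ} (hx : 0 ≤ x) : (x ^ 2) ^ (1 / 4 : ℝ) = x ^ (1 / 2 : ℝ) := by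
  rw [← Real.rpow_natCast, ← Real.rpow_mul hx]
  norm_num


private theorem comb {x a b c : ℝ} (hx : 0 ≤ x) (ha : 0 ≤ a) (hb : 0 ≤ b) (hc : 0 ≤ c) :
    x * (a ^ (1 / 2 : ℝ) * b ^ (1 / 4 : ℝ) * c ^ (1 / 4 : ℝ)) =
      (x ^ 4 * (a ^ 2 * b * c)) ^ (1 / 4 : ℝ) := by
  rw [Real.mul_rpow (by positivity) (by positivity), r4 hx,
    Real.mul_rpow (by positivity) hc, Real.mul_rpow (by positivity) hb, r2 ha]

/-- the inequality for the constants -/
private theorem consts {C1 c1 c2 c3 E cK0 N P A ε DD CV n4 : ℝ} (hE : 0 < E)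
    (h16 : E * cK0 = n4⁻¹) (hn4 : 1 ≤ n4) (hcK : 1 ≤ cK0) (hN : 1 ≤ N) (hP : P = N * cK0)
    (hA : 1 ≤ A) (hε : 0 < ε) (hC1 : 1 ≤ C1) (hc1 : 1 ≤ c1) (hc2 : 1 ≤ c2)
    (hc3 : 1 ≤ c3) (hDD : 0 ≤ DD) (hCV : 1 ≤ CV) (hDV : DD ≤ CV * N ^ (ε / 2)) :
    C1 * E⁻¹ * ((c1 * E) ^ (1 / 2 : ℝ) * (c2 * E * A ^ ε) ^ (1 / 4 : ℝ) *
      (c3 * DD ^ 2 * cK0⁻¹ * P ^ ε) ^ (1 / 4 : ℝ)) ≤
    C1 * (n4 * c1 ^ 2 * c2 * c3 * CV ^ 2) * (A * P) ^ ε := by
  have hN0 : 0 < N := by linarith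
  have hc0 : 0 < cK0 := by linarith
  have hA0 : 0 < A := by linarith
  have hP0 : 0 < P := by rw [hP]; positivity
  have hn0 : 0 < n4 := by linarith
  have hNP : N ≤ P := by rw [hP]; nlinarith
  have hP1 : 1 ≤ P := hN.trans hNP
  have hEi : E⁻¹ = n4 * cK0 := by
    have : E = (n4 * cK0)⁻¹ := by
      rw [mul_inv, ← h16]
      field_simp
    rw [this, inv_inv]
  have hPe1 : 1 ≤ P ^ ε := Real.one_le_rpow hP1 hε.le
  have hAe1 : 1 ≤ A ^ ε := Real.one_le_rpow hA hε.le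
  have hD2 : DD ^ 2 ≤ CV ^ 2 * P ^ ε := by
    calc DD ^ 2 ≤ (CV * N ^ (ε / 2)) ^ 2 := pow_le_pow_left₀ hDD hDV 2
      _ = CV ^ 2 * (N ^ (ε / 2)) ^ 2 := by rw [mul_pow]
      _ = CV ^ 2 * N ^ ε := by
        rw [← Real.rpow_natCast (N ^ (ε / 2)) 2, ← Real.rpow_mul hN0.le]
        congr 2
        push_cast
        ring
      _ ≤ CV ^ 2 * P ^ ε := by
        gcongr
  have e0 : C1 * E⁻¹ * ((c1 * E) ^ (1 / 2 : ℝ) * (c2 * E * A ^ ε) ^ (1 / 4 : ℝ) *
      (c3 * DD ^ 2 * cK0⁻¹ * P ^ ε) ^ (1 / 4 : ℝ)) = C1 * (E⁻¹ * ((c1 * E) ^ (1 / 2 : ℝ) *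
      (c2 * E * A ^ ε) ^ (1 / 4 : ℝ) * (c3 * DD ^ 2 * cK0⁻¹ * P ^ ε) ^ (1 / 4 : ℝ))) := by ring
  rw [e0, comb (by positivity) (by positivity) (by positivity) (by positivity),
    mul_assoc C1 _ ((A * P) ^ ε)]
  refine mul_le_mul_of_nonneg_left ?_ (by linarith)
  have e1 : E⁻¹ ^ 4 * ((c1 * E) ^ 2 * (c2 * E * A ^ ε) * (c3 * DD ^ 2 * cK0⁻¹ * P ^ ε)) =
      n4 * c1 ^ 2 * c2 * c3 * (A ^ ε * P ^ ε * DD ^ 2) := by
    have e2 : E⁻¹ ^ 4 * ((c1 * E) ^ 2 * (c2 * E * A ^ ε) * (c3 * DD ^ 2 * cK0⁻¹ * P ^ ε)) =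
        (E⁻¹ * E) ^ 3 * (E⁻¹ * cK0⁻¹) * (c1 ^ 2 * c2 * c3 * (A ^ ε * P ^ ε * DD ^ 2)) := by ring
    rw [e2, inv_mul_cancel₀ hE.ne', hEi, mul_assoc n4, mul_inv_cancel₀ hc0.ne']
    ring
  rw [e1]
  have hX1 : 1 ≤ n4 * c1 ^ 2 * c2 * c3 * CV ^ 2 :=
    one_le_mul_of_one_le_of_one_le (one_le_mul_of_one_le_of_one_le
      (one_le_mul_of_one_le_of_one_le (one_le_mul_of_one_le_of_one_le hn4 (one_le_pow₀ hc1)) hc2)
      hc3) (one_le_pow₀ hCV)
  have hAP : (A * P) ^ ε = A ^ ε * P ^ ε := Real.mul_rpow hA0.le hP0.le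
  have hle : n4 * c1 ^ 2 * c2 * c3 * (A ^ ε * P ^ ε * DD ^ 2) ≤
      ((n4 * c1 ^ 2 * c2 * c3 * CV ^ 2) * (A * P) ^ ε) ^ 4 := by
    have b1 : A ^ ε * P ^ ε * P ^ ε ≤ ((A * P) ^ ε) ^ 4 := by
      rw [hAP, mul_pow]
      have a1 : A ^ ε ≤ (A ^ ε) ^ 4 := by
        calc A ^ ε = (A ^ ε) ^ 1 := (pow_one _).symm
          _ ≤ (A ^ ε) ^ 4 := pow_le_pow_right₀ hAe1 (by norm_num)
      have a2 : P ^ ε * P ^ ε ≤ (P ^ ε) ^ 4 := by
        calc P ^ ε * P ^ ε = (P ^ ε) ^ 2 := by ring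
          _ ≤ (P ^ ε) ^ 4 := pow_le_pow_right₀ hPe1 (by norm_num)
      calc A ^ ε * P ^ ε * P ^ ε = A ^ ε * (P ^ ε * P ^ ε) := by ring
        _ ≤ _ := mul_le_mul a1 a2 (by positivity) (by positivity)
    calc n4 * c1 ^ 2 * c2 * c3 * (A ^ ε * P ^ ε * DD ^ 2)
        ≤ n4 * c1 ^ 2 * c2 * c3 * (A ^ ε * P ^ ε * (CV ^ 2 * P ^ ε)) := by gcongr
      _ = (n4 * c1 ^ 2 * c2 * c3 * CV ^ 2) * (A ^ ε * P ^ ε * P ^ ε) := by ring
      _ ≤ (n4 * c1 ^ 2 * c2 * c3 * CV ^ 2) ^ 4 * ((A * P) ^ ε) ^ 4 := by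
          refine mul_le_mul ?_ b1 (by positivity) (by positivity)
          calc _ = (n4 * c1 ^ 2 * c2 * c3 * CV ^ 2) ^ 1 := (pow_one _).symm
            _ ≤ _ := pow_le_pow_right₀ hX1 (by norm_num)
      _ = _ := by ring
  calc _ ≤ (((n4 * c1 ^ 2 * c2 * c3 * CV ^ 2) * (A * P) ^ ε) ^ 4) ^ (1 / 4 : ℝ) :=
        Real.rpow_le_rpow (by positivity) hle (by norm_num)
    _ = _ := r4 (by positivity)

/-- the last factor -/
private theorem last_factor {N cK0 P ε : ℝ} (hcK : 1 ≤ cK0) (hN : 1 ≤ N) (hP : P = N * cK0)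
    (hε : 0 < ε) (G : ℝ≥0∞) :
    ENNReal.ofReal N * G + ENNReal.ofReal ((N / cK0) ^ (1 / 2 : ℝ) * cK0 ^ ε) * G ^ 3 ≤
      ENNReal.ofReal (cK0⁻¹ * P ^ ε) * (ENNReal.ofReal P * G +
        ENNReal.ofReal (P ^ (1 / 2 : ℝ)) * G ^ 3) := by
  have hN0 : 0 < N := by linarith
  have hc0 : 0 < cK0 := by linarith
  have hNP : N ≤ P := by rw [hP]; nlinarith
  have hcP : cK0 ≤ P := by rw [hP]; nlinarith
  have hP1 : 1 ≤ P := hN.trans hNP
  have hP0 : 0 < P := by linarith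
  have hPe1 : 1 ≤ P ^ ε := Real.one_le_rpow hP1 hε.le
  rw [mul_add, ← mul_assoc, ← mul_assoc, ← ENNReal.ofReal_mul (by positivity),
    ← ENNReal.ofReal_mul (by positivity)]
  refine add_le_add (mul_le_mul_left (ENNReal.ofReal_le_ofReal ?_) _)
    (mul_le_mul_left (ENNReal.ofReal_le_ofReal ?_) _)
  · have : cK0⁻¹ * P ^ ε * P = P ^ ε * N := by
      rw [hP]; field_simp
    rw [this]
    nlinarith
  · have e1 : (N / cK0) ^ (1 / 2 : ℝ) = cK0⁻¹ * P ^ (1 / 2 : ℝ) := by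
      rw [Real.div_rpow hN0.le hc0.le, hP, Real.mul_rpow hN0.le hc0.le]
      have h1 : cK0 = cK0 ^ (1 / 2 : ℝ) * cK0 ^ (1 / 2 : ℝ) := by
        rw [← Real.rpow_add hc0]; norm_num
      have h0 : cK0 ^ (1 / 2 : ℝ) ≠ 0 := by positivity
      field_simp
      nlinarith [h1]
    have h1 : cK0 ^ ε ≤ P ^ ε := Real.rpow_le_rpow hc0.le hcP hε.le
    rw [e1]
    calc cK0⁻¹ * P ^ (1 / 2 : ℝ) * cK0 ^ ε ≤ cK0⁻¹ * P ^ (1 / 2 : ℝ) * P ^ ε := by gcongr
      _ = _ := by ring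

/-- the real factors -/
private theorem asm {a p q r : ℝ} (ha : 0 ≤ a) (hp : 0 ≤ p) (hq : 0 ≤ q) (hr : 0 ≤ r)
    (W V Y : ℝ≥0∞) :
    ENNReal.ofReal a * ((ENNReal.ofReal p * W) ^ (1 / 2 : ℝ) *
      (ENNReal.ofReal q * V) ^ (1 / 4 : ℝ) * (ENNReal.ofReal r * Y) ^ (1 / 4 : ℝ)) =
    ENNReal.ofReal (a * (p ^ (1 / 2 : ℝ) * q ^ (1 / 4 : ℝ) * r ^ (1 / 4 : ℝ))) *
      (W ^ (1 / 2 : ℝ) * V ^ (1 / 4 : ℝ) * Y ^ (1 / 4 : ℝ)) := by
  rw [ENNReal.mul_rpow_of_nonneg _ W (by norm_num), ENNReal.mul_rpow_of_nonneg _ V (by norm_num),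
    ENNReal.mul_rpow_of_nonneg _ Y (by norm_num),
    ENNReal.ofReal_rpow_of_nonneg hp (by norm_num),
    ENNReal.ofReal_rpow_of_nonneg hq (by norm_num),
    ENNReal.ofReal_rpow_of_nonneg hr (by norm_num),
    ENNReal.ofReal_mul ha, ENNReal.ofReal_mul (by positivity), ENNReal.ofReal_mul (by positivity)]
  ring

/-- the measure of the ball of radius `3` at one place -/
private theorem mz_ball (r : Bool) : mz r (Metric.closedBall (0 : ℂ) 3) ≤ ENNReal.ofReal 29 := by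
  cases r
  · have h1 : mz false = volume := by simp [mz]
    rw [h1, Complex.volume_closedBall]
    have h2 : Real.pi < 3.15 := Real.pi_lt_d2
    have h3 : (NNReal.pi : ℝ≥0∞) = ENNReal.ofReal Real.pi := by
      rw [ENNReal.ofReal, ← NNReal.coe_real_pi, Real.toNNReal_coe]
    rw [h3, ← ENNReal.ofReal_pow (by norm_num), ← ENNReal.ofReal_mul (by positivity)]
    apply ENNReal.ofReal_le_ofReal
    nlinarith
  · have h1 : mz true = Measure.map (fun x : ℝ => (x : ℂ)) volume := by simp [mz]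
    have hemb : MeasurableEmbedding (fun x : ℝ => (x : ℂ)) :=
      Complex.isometry_ofReal.isClosedEmbedding.measurableEmbedding
    rw [h1, hemb.map_apply]
    have h2 : (fun x : ℝ => (x : ℂ)) ⁻¹' Metric.closedBall (0 : ℂ) 3 = Icc (-3) 3 := by
      ext x
      simp only [mem_preimage, Metric.mem_closedBall, dist_zero_right, Complex.norm_real,
        Real.norm_eq_abs, abs_le, mem_Icc]
    rw [h2, Real.volume_Icc]
    apply ENNReal.ofReal_le_ofReal
    norm_num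

/-- the measure of the ball of radius `3` -/
private theorem mK_ball (K : Type) [Field K] [NumberField K] :
    mK K (ZB K) ≤ ENNReal.ofReal (29 ^ Module.finrank ℚ K) := by
  have h1 : ZB K = Set.pi univ (fun _ : InfinitePlace K => Metric.closedBall (0 : ℂ) 3) := by
    ext z
    simp [ZB]
  rw [h1, mK, Measure.pi_pi]
  calc ∏ v : InfinitePlace K, mz (rv v) (Metric.closedBall (0 : ℂ) 3)
      ≤ ∏ v : InfinitePlace K, ENNReal.ofReal 29 :=
        Finset.prod_le_prod' fun v _ => mz_ball (rv v)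
    _ = ENNReal.ofReal (29 ^ Fintype.card (InfinitePlace K)) := by
        rw [Finset.prod_const, Finset.card_univ, ENNReal.ofReal_pow (by norm_num)]
    _ ≤ ENNReal.ofReal (29 ^ Module.finrank ℚ K) := by
        apply ENNReal.ofReal_le_ofReal
        apply pow_le_pow_right₀ (by norm_num)
        have h2 := card_add_two_mul_card_eq_rank K
        have h3 := card_eq_nrRealPlaces_add_nrComplexPlaces K
        omega


open scoped Classical in
theorem pf_R_HP (hSD : N_SD) (hCA1 : N_CA) (hCA : R_CA) (hGB : R_GB) (hM4 : R_M4) (hUF : K_UF)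
    (hMT : N_MT) (hDV : Pool.Agent.H29.TC.T_DV) : R_HP := by
  intro n hn ε hε hε8
  obtain ⟨C1, hC1, h1⟩ := hSD n hn
  obtain ⟨C2, hC2, h2⟩ := hCA1 n hn
  obtain ⟨C3, hC3, h3⟩ := hCA n hn
  obtain ⟨C4, hC4, h4⟩ := hGB n hn ε hε (by linarith)
  obtain ⟨C5, hC5, h5⟩ := hM4 n hn ε hε hε8
  obtain ⟨CV0, h6⟩ := hDV n (ε / 2) (by linarith)
  have hCV : 1 ≤ max CV0 1 := le_max_right _ _
  have hC5' : 1 ≤ C5 * C1 ^ (4 * n) := one_le_mul_of_one_le_of_one_le hC5 (one_le_pow₀ hC1)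
  have h16n : (1 : ℝ) ≤ 16 ^ n := one_le_pow₀ (by norm_num)
  have h29n : (1 : ℝ) ≤ 29 ^ n := one_le_pow₀ (by norm_num)
  have hc1 : (1 : ℝ) ≤ 29 ^ n * (C2 * 2) :=
    one_le_mul_of_one_le_of_one_le h29n (one_le_mul_of_one_le_of_one_le hC2 (by norm_num))
  have hc2 : (1 : ℝ) ≤ 29 ^ n * (C3 * C4) :=
    one_le_mul_of_one_le_of_one_le h29n (one_le_mul_of_one_le_of_one_le hC3 hC4)
  refine ⟨4 ^ n * (C1 * (16 ^ n * (29 ^ n * (C2 * 2)) ^ 2 * (29 ^ n * (C3 * C4)) *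
    (C5 * C1 ^ (4 * n)) * (max CV0 1) ^ 2)), ?_, ?_⟩
  · exact one_le_mul_of_one_le_of_one_le (one_le_pow₀ (by norm_num))
      (one_le_mul_of_one_le_of_one_le hC1 (one_le_mul_of_one_le_of_one_le
        (one_le_mul_of_one_le_of_one_le (one_le_mul_of_one_le_of_one_le
          (one_le_mul_of_one_le_of_one_le h16n (one_le_pow₀ hc1)) hc2) hC5')
        (one_le_pow₀ hCV)))
  intro K _ _ hK f hf χ hχ L y μ A P S E hL hQ hS hES hP
  have hf' : ((f : Ideal (𝓞 K)) : FI K) ≠ 0 := by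
    rwa [Ne, FractionalIdeal.coeIdeal_eq_zero]
  obtain ⟨F, hF⟩ := hUF K ((f : FI K) * L) y (mul_ne_zero hf' hL)
  have hcc : ∀ v, 1 ≤ cc (χ.k v) (μ v) := by
    intro v
    unfold cc
    have := abs_nonneg (μ v).im
    have := abs_nonneg ((χ.k v : ℤ) : ℝ)
    linarith
  have hη : ∀ v, 0 < (1 / 16 : ℝ) * (cc (χ.k v) (μ v))⁻¹ := fun v => by
    have := hcc v
    positivity
  have hη2 : ∀ v, (1 / 16 : ℝ) * (cc (χ.k v) (μ v))⁻¹ * cc (χ.k v) (μ v) = 1 / 16 := fun v => by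
    have := hcc v
    rw [mul_assoc, inv_mul_cancel₀ (by linarith), mul_one]
  have hη4 : (fun v => 4 * ((1 / 16 : ℝ) * (cc (χ.k v) (μ v))⁻¹)) =
      fun v => 1 / (4 * cc (χ.k v) (μ v)) := by
    funext v
    have := hcc v
    field_simp
    norm_num
  rw [← hη4]
  generalize hηd : (fun v => (1 / 16 : ℝ) * (cc (χ.k v) (μ v))⁻¹) = η at *
  have hηv : ∀ v, η v = (1 / 16 : ℝ) * (cc (χ.k v) (μ v))⁻¹ := fun v => by rw [← hηd]
  simp_rw [← hηv]
  have hη' : ∀ v, 0 < η v := fun v => by rw [hηv]; exact hη v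
  have hη2' : ∀ v, η v * cc (χ.k v) (μ v) = 1 / 16 := fun v => by rw [hηv]; exact hη2 v
  obtain ⟨Am, hAm, hSDa⟩ := h1 K hK f hf χ L y η F μ hL hF hQ hη' (fun v => (hη2' v).le)
  have hsum : ∑ v : InfinitePlace K, v.mult = n := by
    rw [← hK]; exact InfinitePlace.sum_mult_eq
  -- the product of the eta
  have hE0 : 0 < ∏ v, η v ^ v.mult := Finset.prod_pos fun v _ => pow_pos (hη' v) _
  have hEc : (∏ v, η v ^ v.mult) * cK χ.k μ = (16 ^ n : ℝ)⁻¹ := by
    unfold cK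
    rw [← Finset.prod_mul_distrib]
    simp_rw [← mul_pow, hη2']
    rw [Finset.prod_pow_eq_pow_sum, hsum]
    rw [one_div, inv_pow]
  set H : ℝ := ∏ v, η v ^ v.mult with hHdef
  have hcK : 1 ≤ cK χ.k μ := by
    unfold cK
    exact Finset.prod_induction _ (fun x => (1 : ℝ) ≤ x)
      (fun a b ha hb => one_le_mul_of_one_le_of_one_le ha hb) le_rfl
      (fun v _ => one_le_pow₀ (hcc v))
  have hN : 1 ≤ Nf K f := by
    unfold Nf
    have : Ideal.absNorm f ≠ 0 := by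
      rwa [Ne, Ideal.absNorm_eq_zero_iff]
    exact_mod_cast Nat.one_le_iff_ne_zero.mpr this
  have hcard : Fintype.card (InfinitePlace K → Fin 4) ≤ 4 ^ n := by
    rw [Fintype.card_fun, Fintype.card_fin]
    refine Nat.pow_le_pow_right (by norm_num) ?_
    calc Fintype.card (InfinitePlace K) = ∑ v : InfinitePlace K, 1 := by simp
      _ ≤ ∑ v : InfinitePlace K, v.mult := Finset.sum_le_sum fun v _ => InfinitePlace.mult_pos
      _ = n := hsum
  have hA : 1 ≤ A := hS.one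
  have hA0 : 0 < A := lt_of_lt_of_le one_pos hA
  have hN0 : 0 < Nf K f := lt_of_lt_of_le one_pos hN
  have hc0 : 0 < cK χ.k μ := lt_of_lt_of_le one_pos hcK
  have hP0 : 0 < P := by rw [hP]; positivity
  have hNn : ∀ a : Ideal (𝓞 K), (0 : ℝ) ≤ Nf K a := by
    intro a
    unfold Nf
    positivity
  have hZB : mK K (ZB K) ≤ ENNReal.ofReal (29 ^ n) := hK ▸ mK_ball K
  -- the measures
  have : SigmaFinite (mK K) := by unfold mK; infer_instance
  have hmt := hMT K f L y hL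
  have hm : ∀ a : Ideal (𝓞 K), ∀ z, Measurable (fun ζ => nA f L y η a ζ z) := by
    intro a z
    exact (hmt.2 η a).comp (measurable_id.prodMk measurable_const)
  -- the functions
  have hna : ∀ a, Measurable (fun q : (InfinitePlace K → ℂ) × (InfinitePlace K → ℂ) =>
      nA f L y η a q.2 q.1) := fun a =>
    swap_meas (g := fun ζ z => nA f L y η a ζ z) (hmt.2 η a)
  have hu : Measurable (fun q : (InfinitePlace K → ℂ) × (InfinitePlace K → ℂ) =>
      ∑ a ∈ E, nA f L y η a q.2 q.1) := Finset.measurable_sum _ fun a _ => hna a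
  have ht : ∀ j, Measurable (fun q : (InfinitePlace K → ℂ) × (InfinitePlace K → ℂ) =>
      ENNReal.ofReal ‖TT (cg χ L) L y (PhA χ.k μ (Am j)) q.2 q.1‖) := by
    intro j
    have := swap_meas (g := fun ζ z => TT (cg χ L) L y (PhA χ.k μ (Am j)) ζ z)
      (hmt.1 (cg χ L) χ.k μ C1 (Am j) (hAm j))
    exact this.norm.ennreal_ofReal
  have hnt : ∀ a j, Measurable (fun q : (InfinitePlace K → ℂ) × (InfinitePlace K → ℂ) =>
      nA f L y η a q.2 q.1 *
        ENNReal.ofReal ‖TT (cg χ L) L y (PhA χ.k μ (Am j)) q.2 q.1‖) :=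
    fun a j => (hna a).mul (ht j)
  have hout : ∀ (g : (InfinitePlace K → ℂ) → ℝ≥0∞) (B : ℝ≥0∞), (∀ z, g z ≤ B) →
      ∫⁻ z in ZB K, g z ∂mK K ≤ ENNReal.ofReal (29 ^ n) * B := by
    intro g B hg
    calc ∫⁻ z in ZB K, g z ∂mK K ≤ ∫⁻ _ in ZB K, B ∂mK K := lintegral_mono hg
      _ = B * mK K (ZB K) := by rw [setLIntegral_const]
      _ ≤ B * ENNReal.ofReal (29 ^ n) := mul_le_mul_right hZB _
      _ = ENNReal.ofReal (29 ^ n) * B := mul_comm _ _
  set W : ℝ≥0∞ := ENNReal.ofReal (E.card * A) with hW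
  set O : ℝ≥0∞ := od f S (fun v => 4 * η v) L y with hO
  set G : ℝ≥0∞ := 1 + gs f L y with hG
  set Y : ℝ≥0∞ := ENNReal.ofReal P * G + ENNReal.ofReal (P ^ (1 / 2 : ℝ)) * G ^ 3 with hY
  -- the three integrals
  have I1 : ∫⁻ q, ∑ a ∈ E, nA f L y η a q.2 q.1
      ∂(((mK K).restrict (ZB K)).prod ((mK K).restrict F)) ≤
      ENNReal.ofReal (29 ^ n * (C2 * 2) * H) * W := by
    rw [lintegral_prod _ hu.aemeasurable]
    refine (hout _ (ENNReal.ofReal (C2 * 2 * H) * W) ?_).trans (le_of_eq ?_)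
    · intro z
      rw [lintegral_finsetSum _ fun a _ => hm a z]
      calc ∑ a ∈ E, ∫⁻ ζ in F, nA f L y η a ζ z ∂mK K
          ≤ ∑ a ∈ E, ENNReal.ofReal (C2 * H * (2 * A)) := by
            apply Finset.sum_le_sum
            intro a ha
            refine ((h2 K hK f a a L y η F z hf (hS.ne a (hES ha)) (hS.ne a (hES ha)) hL hF
              hη').1).trans ?_
            apply ENNReal.ofReal_le_ofReal
            apply mul_le_mul_of_nonneg_left (hS.size a (hES ha)).2.le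
            positivity
        _ = ENNReal.ofReal (C2 * 2 * H) * W := by
            rw [← ENNReal.ofReal_sum_of_nonneg (fun a _ => by positivity), Finset.sum_const,
              nsmul_eq_mul, hW, ← ENNReal.ofReal_mul (by positivity)]
            congr 1
            ring
    · rw [← mul_assoc, ← ENNReal.ofReal_mul (by positivity)]
      congr 2
      ring
  have I2 : ∫⁻ q, (∑ a ∈ E, nA f L y η a q.2 q.1) ^ 2
      ∂(((mK K).restrict (ZB K)).prod ((mK K).restrict F)) ≤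
      ENNReal.ofReal (29 ^ n * (C3 * C4) * H * A ^ ε) * (W + O) := by
    rw [lintegral_prod _ (hu.pow_const 2).aemeasurable]
    refine (hout _ (ENNReal.ofReal (C3 * H) * (ENNReal.ofReal (C4 * A ^ ε) * (W + O))) ?_).trans
      (le_of_eq ?_)
    · intro z
      have e1 : ∀ ζ, (∑ a ∈ E, nA f L y η a ζ z) ^ 2 =
          ∑ a ∈ E, ∑ b ∈ E, nA f L y η a ζ z * nA f L y η b ζ z := by
        intro ζ
        rw [sq, Finset.sum_mul_sum]
      simp_rw [e1]
      have hmm : ∀ a b : Ideal (𝓞 K), Measurable (fun ζ => nA f L y η a ζ z * nA f L y η b ζ z) :=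
        fun a b => (hm a z).mul (hm b z)
      have hms : ∀ a : Ideal (𝓞 K),
          Measurable (fun ζ => ∑ b ∈ E, nA f L y η a ζ z * nA f L y η b ζ z) :=
        fun a => Finset.measurable_fun_sum _ fun b _ => hmm a b
      rw [lintegral_finsetSum E fun a _ => hms a]
      have e2 : ∀ a ∈ E, ∫⁻ ζ in F, ∑ b ∈ E, nA f L y η a ζ z * nA f L y η b ζ z ∂mK K ≤
          ∑ b ∈ E, ENNReal.ofReal (C3 * H) * (ENNReal.ofReal (Nf K (a ⊔ b)) *
            (1 + cn ((f : FI K) * (((a ⊓ b : Ideal (𝓞 K)) : FI K)⁻¹ * L)) y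
              (fun v => 4 * η v))) := by
        intro a ha
        rw [lintegral_finsetSum E fun b _ => hmm a b]
        apply Finset.sum_le_sum
        intro b hb
        exact h3 K hK f a b L y η F z hf (hS.ne a (hES ha)) (hS.ne b (hES hb)) hL hF hη'
      refine (Finset.sum_le_sum e2).trans ?_
      simp_rw [← Finset.mul_sum]
      refine mul_le_mul_right ?_ _
      simp_rw [mul_add, mul_one, Finset.sum_add_distrib]
      have hC4A : (1 : ℝ) ≤ C4 * A ^ ε :=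
        one_le_mul_of_one_le_of_one_le hC4 (Real.one_le_rpow hA hε.le)
      refine add_le_add ?_ ?_
      · calc ∑ a ∈ E, ∑ b ∈ E, ENNReal.ofReal (Nf K (a ⊔ b))
            ≤ ∑ a ∈ E, ENNReal.ofReal (C4 * A ^ (1 + ε)) := by
              refine Finset.sum_le_sum fun a ha => ?_
              rw [← ENNReal.ofReal_sum_of_nonneg fun b _ => hNn _]
              refine ENNReal.ofReal_le_ofReal ?_
              exact (Finset.sum_le_sum_of_subset_of_nonneg hES fun b _ _ => hNn _).trans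
                (h4 K hK f A S hS a (hES ha))
          _ = ENNReal.ofReal (C4 * A ^ ε) * W := by
              rw [Finset.sum_const, nsmul_eq_mul, hW, ← ENNReal.ofReal_natCast,
                ← ENNReal.ofReal_mul (by positivity), ← ENNReal.ofReal_mul (by positivity),
                Real.rpow_add hA0, Real.rpow_one]
              congr 1
              ring
      · calc _ ≤ O := by
              rw [hO]
              unfold od
              refine (Finset.sum_le_sum fun a _ => ?_).trans (Finset.sum_le_sum_of_subset hES)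
              exact Finset.sum_le_sum_of_subset hES
          _ = ENNReal.ofReal 1 * O := by rw [ENNReal.ofReal_one, one_mul]
          _ ≤ _ := mul_le_mul_left (ENNReal.ofReal_le_ofReal hC4A) _
    · rw [← mul_assoc, ← mul_assoc, ← ENNReal.ofReal_mul (by positivity),
        ← ENNReal.ofReal_mul (by positivity)]
      congr 2
      ring
  have I3 : ∀ j, ∫⁻ q, (ENNReal.ofReal ‖TT (cg χ L) L y (PhA χ.k μ (Am j)) q.2 q.1‖) ^ 4
      ∂(((mK K).restrict (ZB K)).prod ((mK K).restrict F)) ≤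
      ENNReal.ofReal (C5 * C1 ^ (4 * n) * (dvs K f).card ^ 2 * (cK χ.k μ)⁻¹ * P ^ ε) * Y := by
    intro j
    rw [lintegral_prod _ ((ht j).pow_const 4).aemeasurable]
    have := h5 K hK f hf χ hχ L y F μ C1 (Am j) hL hF hQ hC1 (hAm j)
    refine le_trans ?_ (this.trans ?_)
    · refine le_trans (lintegral_mono' Measure.restrict_le_self le_rfl) ?_
      refine lintegral_mono fun z => lintegral_mono fun ζ => ?_
      rw [ENNReal.ofReal_pow (norm_nonneg _)]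
    · refine (mul_le_mul_right (last_factor hcK hN hP hε G) _).trans (le_of_eq ?_)
      rw [← mul_assoc, ← ENNReal.ofReal_mul (by positivity)]
      congr 2
      ring
  -- the bound for every `j`
  have hJ : ∀ j, ENNReal.ofReal (C1 * H⁻¹) *
      ∫⁻ q, (∑ a ∈ E, nA f L y η a q.2 q.1) *
        ENNReal.ofReal ‖TT (cg χ L) L y (PhA χ.k μ (Am j)) q.2 q.1‖
      ∂(((mK K).restrict (ZB K)).prod ((mK K).restrict F)) ≤
      ENNReal.ofReal (C1 * (16 ^ n * (29 ^ n * (C2 * 2)) ^ 2 * (29 ^ n * (C3 * C4)) *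
        (C5 * C1 ^ (4 * n)) * (max CV0 1) ^ 2) * (A * P) ^ ε) *
        (W ^ (1 / 2 : ℝ) * (W + O) ^ (1 / 4 : ℝ) * Y ^ (1 / 4 : ℝ)) := by
    intro j
    have hh := hoelder (((mK K).restrict (ZB K)).prod ((mK K).restrict F)) _ _ hu (ht j)
    have hr := consts (C1 := C1) (c1 := 29 ^ n * (C2 * 2)) (c2 := 29 ^ n * (C3 * C4))
      (c3 := C5 * C1 ^ (4 * n)) (n4 := 16 ^ n) (E := H) (cK0 := cK χ.k μ) (N := Nf K f)
      (P := P) (A := A) (ε := ε) (DD := (dvs K f).card) (CV := max CV0 1)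
      hE0 hEc h16n hcK hN hP hA hε hC1 hc1 hc2 hC5' (Nat.cast_nonneg _) hCV
      ((h6 K hK f hf).trans (mul_le_mul_of_nonneg_right (le_max_left _ _) (by positivity)))
    refine le_trans (mul_le_mul_right hh _) ?_
    refine le_trans (mul_le_mul_right (mul_le_mul' (mul_le_mul'
      (ENNReal.rpow_le_rpow I1 (by norm_num)) (ENNReal.rpow_le_rpow I2 (by norm_num)))
      (ENNReal.rpow_le_rpow (I3 j) (by norm_num))) _) ?_
    rw [asm (by positivity) (by positivity) (by positivity) (by positivity)]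
    exact mul_le_mul_left (ENNReal.ofReal_le_ofReal hr) _
  -- the sum over the multipliers
  calc ∑ a ∈ E, ENNReal.ofReal ‖SS χ ((a : FI K)⁻¹ * L) y μ‖
      ≤ ∑ a ∈ E, ENNReal.ofReal (C1 * H⁻¹) *
        ∑ j : InfinitePlace K → Fin 4, ∫⁻ q, nA f L y η a q.2 q.1 *
          ENNReal.ofReal ‖TT (cg χ L) L y (PhA χ.k μ (Am j)) q.2 q.1‖
        ∂(((mK K).restrict (ZB K)).prod ((mK K).restrict F)) := by
        refine Finset.sum_le_sum fun a ha => ?_
        refine (hSDa a (hS.ne a (hES ha)) (hS.cop a (hES ha))).trans (le_of_eq ?_)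
        congr 1
        refine Finset.sum_congr rfl fun j _ => ?_
        rw [lintegral_prod _ (hnt a j).aemeasurable]
    _ = ∑ j : InfinitePlace K → Fin 4, ENNReal.ofReal (C1 * H⁻¹) *
        ∫⁻ q, (∑ a ∈ E, nA f L y η a q.2 q.1) *
          ENNReal.ofReal ‖TT (cg χ L) L y (PhA χ.k μ (Am j)) q.2 q.1‖
        ∂(((mK K).restrict (ZB K)).prod ((mK K).restrict F)) := by
        rw [← Finset.mul_sum, Finset.sum_comm, Finset.mul_sum]
        refine Finset.sum_congr rfl fun j _ => ?_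
        congr 1
        simp_rw [Finset.sum_mul]
        rw [lintegral_finsetSum _ fun a _ => hnt a j]
    _ ≤ ∑ j : InfinitePlace K → Fin 4, ENNReal.ofReal (C1 * (16 ^ n * (29 ^ n * (C2 * 2)) ^ 2 *
        (29 ^ n * (C3 * C4)) * (C5 * C1 ^ (4 * n)) * (max CV0 1) ^ 2) * (A * P) ^ ε) *
        (W ^ (1 / 2 : ℝ) * (W + O) ^ (1 / 4 : ℝ) * Y ^ (1 / 4 : ℝ)) :=
        Finset.sum_le_sum fun j _ => hJ j
    _ = (Fintype.card (InfinitePlace K → Fin 4) : ℝ≥0∞) * (ENNReal.ofReal (C1 *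
        (16 ^ n * (29 ^ n * (C2 * 2)) ^ 2 *
        (29 ^ n * (C3 * C4)) * (C5 * C1 ^ (4 * n)) * (max CV0 1) ^ 2) * (A * P) ^ ε) *
        (W ^ (1 / 2 : ℝ) * (W + O) ^ (1 / 4 : ℝ) * Y ^ (1 / 4 : ℝ))) := by
        rw [Finset.sum_const, nsmul_eq_mul, Finset.card_univ]
    _ ≤ ENNReal.ofReal (4 ^ n) * (ENNReal.ofReal (C1 *
        (16 ^ n * (29 ^ n * (C2 * 2)) ^ 2 *
        (29 ^ n * (C3 * C4)) * (C5 * C1 ^ (4 * n)) * (max CV0 1) ^ 2) * (A * P) ^ ε) *
        (W ^ (1 / 2 : ℝ) * (W + O) ^ (1 / 4 : ℝ) * Y ^ (1 / 4 : ℝ))) := by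
        refine mul_le_mul_left ?_ _
        rw [← ENNReal.ofReal_natCast]
        refine ENNReal.ofReal_le_ofReal ?_
        exact_mod_cast hcard
    _ = _ := by
        have e3 : (4 : ℝ) ^ n * (C1 * (16 ^ n * (29 ^ n * (C2 * 2)) ^ 2 * (29 ^ n * (C3 * C4)) *
            (C5 * C1 ^ (4 * n)) * (max CV0 1) ^ 2) * (A * P) ^ ε) =
            4 ^ n * (C1 * (16 ^ n * (29 ^ n * (C2 * 2)) ^ 2 * (29 ^ n * (C3 * C4)) *
            (C5 * C1 ^ (4 * n)) * (max CV0 1) ^ 2)) * (A * P) ^ ε := by ring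
        rw [← mul_assoc, ← ENNReal.ofReal_mul (by positivity), e3, ← mul_assoc, ← mul_assoc]

end Pool.Agent.H79.BH
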